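import Pool.Agent.H83.ZU.Lim
import Pool.Agent.H32.TZ.Itf

/-!
# THEOREM Z (MP_e49dc9_ag): `SmV` near `x p`, `p ^ 2 ≠ 0`

`smv`: the divisors `W = ∏ G_i ^ n_i` near `x p` with `0 ≤ T(p,p,W) ≤ Q / x` have `(1 + th) vol < h0`, `x` large.
`lb_pos`: they have at least `(∑ p_i l(G_i)) x / 4` sections.  `lb_wrong`: `T(p,p,W) < 0` implies `x |T(p,p,W)| ≥ c`.
-/

set_option autoImplicit false

namespace Pool.Agent.H83.ZU

open Pool.Agent.H54.RV Pool.Agent.H83.TU Pool.Agent.H83.TK Pool.Agent.H24.VP Pool.Agent.H39.TQ Pool.Agent.H36.TQ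
open Pool.Agent.H36.TZ Pool.Agent.H24.ZL Pool.Agent.H32.TZ Filter Topology

variable {k K : Type} [Field k] [Field K] [Algebra k K] {X : Mod k K}
  {T : Cart X → Cart X → Cart X → ℝ} {l : Cart X → ℝ} {c : ℝ} {r : ℕ} {G : Fin r → Cart X} {p : Fin r → ℝ} {A : Cart X}

/-- the volume near `x p` -/
theorem vol_near [CharZero k] [T0Space X.P] (h : Hyp X) (hr : RR T l c) (hp : Rn G p A) (h3 : p3 T G p = 0)
    (ha : 0 < pz T G p A) {δ : ℝ} (hδ : 0 ≤ δ) {ρ : ℝ} (hρ : 0 < ρ) (Q : ℝ) :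
    ∃ x₁ C : ℝ, ∀ (n : Fin r → ℤ) (x : ℝ), x₁ ≤ x → (∀ i, |(n i : ℝ) - x * p i| ≤ δ) →
      0 ≤ pz T G p (∏ i, G i ^ n i) → x * pz T G p (∏ i, G i ^ n i) ≤ Q →
        ∃ q : ℕ, 1 ≤ q ∧ vol ((∏ i, G i ^ n i) ^ q * A) ≤
          q ^ 3 * (x ^ 2 * pz T G p (∏ i, G i ^ n i) / 2 + ρ * x / 2 + C) := by
  have ht := hr.tri
  obtain ⟨a, had⟩ : ∃ a, a = pz T G p A := ⟨_, rfl⟩
  obtain ⟨C₂, hC₂⟩ : ∃ C₂, C₂ = pT T G p A A := ⟨_, rfl⟩
  obtain ⟨C₁, hC₁⟩ : ∃ C₁, C₁ = ∑ i, |pT T G p (G i) A| := ⟨_, rfl⟩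
  obtain ⟨C₃, hC₃⟩ : ∃ C₃, C₃ = ∑ i, |T (G i) A A| := ⟨_, rfl⟩
  have h2p : 0 < C₂ := by rw [hC₂]; exact pTA_pos h hr hp ha
  have h1p : 0 ≤ C₁ := by rw [hC₁]; positivity
  have h3p : 0 ≤ C₃ := by rw [hC₃]; positivity
  have hA3 := pos_amp h hr hp.hA hp.hA hp.hA
  have ha0 : 0 < a := by rw [had]; exact ha
  obtain ⟨Q', hQ'⟩ : ∃ Q', Q' = |Q| + ρ := ⟨_, rfl⟩
  have hQ'0 : 0 < Q' := by rw [hQ']; positivity
  obtain ⟨E, hE⟩ : ∃ E, E = 2 * δ * C₁ / a + Q' * (C₂ + δ * C₃) / a ^ 2 + 1 := ⟨_, rfl⟩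
  have hE1 : 1 ≤ E := by
    have h4 : 0 ≤ 2 * δ * C₁ / a + Q' * (C₂ + δ * C₃) / a ^ 2 := by positivity
    rw [hE]
    linarith
  refine ⟨max 1 E, Q' * E, fun n x hx hn hz hzQ => ?_⟩
  have hx1 : 1 ≤ x := (le_max_left _ _).trans hx
  have hxE : E ≤ x := (le_max_right _ _).trans hx
  have hx0 : 0 < x := by linarith
  obtain ⟨W, hW⟩ : ∃ W, W = ∏ i, G i ^ n i := ⟨_, rfl⟩
  have g1 := P_pT (G := G) (p := p) ht n x A
  have g2 := P_T (G := G) (p := p) ht n x A A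
  have g3 := (abs_le.1 (sum_bd _ (fun i => pT T G p (G i) A) hn)).2
  have g4 := (abs_le.1 (sum_bd _ (fun i => T (G i) A A) hn)).2
  rw [← hC₁] at g3
  rw [← hC₃] at g4
  rw [← had] at g1
  rw [← hC₂] at g2
  rw [← hW] at g1 g2 hz hzQ ⊢
  obtain ⟨z, hzd⟩ : ∃ z, z = pz T G p W := ⟨_, rfl⟩
  rw [← hzd] at hz hzQ ⊢
  obtain ⟨z', hz'⟩ : ∃ z', z' = z + ρ / x := ⟨_, rfl⟩
  have hz'0 : 0 < z' := by rw [hz']; positivity
  have hxz' : x * z' ≤ Q' := by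
    have h4 : x * z' = x * z + ρ := by
      rw [hz']
      field_simp
    rw [h4, hQ']
    linarith [le_abs_self Q]
  have hx2z' : x ^ 2 * z' = x ^ 2 * z + ρ * x := by
    rw [hz']
    field_simp
  have hz'Q : z' ≤ Q' := by nlinarith
  obtain ⟨μ, hμ⟩ : ∃ μ, μ = z' / (a * x) := ⟨_, rfl⟩
  have hμ0 : 0 < μ := by rw [hμ]; positivity
  -- the value of the quadratic form
  have f1 : z + 2 * μ * pT T G p W A + μ ^ 2 * T W A A ≤ z' * (3 + (E - 1) / x) := by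
    have f2 : pT T G p W A ≤ x * a + δ * C₁ := by rw [g1]; linarith
    have f3 : T W A A ≤ x * C₂ + δ * C₃ := by rw [g2]; linarith
    have f4 : 2 * μ * pT T G p W A ≤ 2 * z' + z' * (2 * δ * C₁ / a / x) := by
      calc 2 * μ * pT T G p W A ≤ 2 * μ * (x * a + δ * C₁) := mul_le_mul_of_nonneg_left f2 (by positivity)
        _ = 2 * z' + z' * (2 * δ * C₁ / a / x) := by
          rw [hμ]
          field_simp
    have f5 : μ ^ 2 * T W A A ≤ z' * (Q' * (C₂ + δ * C₃) / a ^ 2 / x) := by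
      have f6 : δ * C₃ ≤ x * (δ * C₃) := le_mul_of_one_le_left (by positivity) hx1
      calc μ ^ 2 * T W A A ≤ μ ^ 2 * (x * (C₂ + δ * C₃)) := by
            refine mul_le_mul_of_nonneg_left ?_ (by positivity)
            rw [mul_add]
            linarith
        _ = z' * (z' * (C₂ + δ * C₃) / a ^ 2 / x) := by
          rw [hμ]
          field_simp
        _ ≤ z' * (Q' * (C₂ + δ * C₃) / a ^ 2 / x) := by
          gcongr
    have f6 : z ≤ z' := by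
      rw [hz']
      have : 0 ≤ ρ / x := by positivity
      linarith
    have f7 : z' * (3 + (E - 1) / x) = z' + (2 * z' + z' * (2 * δ * C₁ / a / x)) +
        z' * (Q' * (C₂ + δ * C₃) / a ^ 2 / x) := by
      rw [hE]
      field_simp
      ring
    rw [f7]
    linarith
  obtain ⟨e, he⟩ : ∃ e, e = a + 2 * μ * C₂ + μ ^ 2 * T A A A := ⟨_, rfl⟩
  have he0 : 0 < e := by rw [he]; positivity
  obtain ⟨q, hq⟩ := exists_nat_gt (e * x / z')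
  have hq0 : (0 : ℝ) < q := lt_of_le_of_lt (by positivity) hq
  refine ⟨q, by exact_mod_cast hq0, ?_⟩
  have f8 : e ≤ q * (z' / x) := by
    rw [div_lt_iff₀ hz'0] at hq
    rw [← mul_div_assoc, le_div_iff₀ hx0]
    exact hq.le
  have f9 := vol_p h hr hp h3 ha hμ0 (W ^ q * A)
  have f10 : pz T G p (W ^ q * A) + 2 * μ * pT T G p (W ^ q * A) A + μ ^ 2 * T (W ^ q * A) A A =
      q * (z + 2 * μ * pT T G p W A + μ ^ 2 * T W A A) + e := by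
    rw [pz_mul ht, pz_pow ht, pT_mul ht, pT_pow ht, ht.add, ht.pow, he, ← hzd, ← had, ← hC₂]
    ring
  rw [f10, ← had, ← hC₂] at f9
  have f11 : max 0 (q * (z + 2 * μ * pT T G p W A + μ ^ 2 * T W A A) + e) ≤ q * (z' * (3 + E / x)) := by
    refine max_le (by positivity) ?_
    have f12 : (q : ℝ) * (z' * (3 + E / x)) = q * (z' * (3 + (E - 1) / x)) + q * (z' / x) := by
      field_simp
      ring
    rw [f12]
    exact add_le_add (mul_le_mul_of_nonneg_left f1 hq0.le) f8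
  have f12 : 3 * z' / x ≤ 3 * μ * a + 3 * μ ^ 2 * C₂ + μ ^ 3 * T A A A := by
    have f13 : 3 * μ * a = 3 * z' / x := by
      rw [hμ]
      field_simp
    rw [f13]
    have : 0 ≤ 3 * μ ^ 2 * C₂ + μ ^ 3 * T A A A := by positivity
    linarith
  refine f9.trans ?_
  have f14 : max 0 (q * (z + 2 * μ * pT T G p W A + μ ^ 2 * T W A A) + e) ^ 3 /
      (6 * (3 * μ * a + 3 * μ ^ 2 * C₂ + μ ^ 3 * T A A A) ^ 2) ≤ (q * (z' * (3 + E / x))) ^ 3 / (6 * (3 * z' / x) ^ 2) := by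
    have f15 : max 0 (q * (z + 2 * μ * pT T G p W A + μ ^ 2 * T W A A) + e) ^ 3 ≤ (q * (z' * (3 + E / x))) ^ 3 :=
      pow_le_pow_left₀ (le_max_left _ _) f11 3
    have f16 : 6 * (3 * z' / x) ^ 2 ≤ 6 * (3 * μ * a + 3 * μ ^ 2 * C₂ + μ ^ 3 * T A A A) ^ 2 :=
      mul_le_mul_of_nonneg_left (pow_le_pow_left₀ (by positivity) f12 2) (by norm_num)
    exact div_le_div₀ (by positivity) f15 (by positivity) f16
  refine f14.trans ?_
  obtain ⟨y, hy⟩ : ∃ y, y = E / x := ⟨_, rfl⟩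
  have hy0 : 0 < y := by rw [hy]; positivity
  have hy1 : y ≤ 1 := by rw [hy, div_le_one hx0]; exact hxE
  have f17 : (q * (z' * (3 + E / x))) ^ 3 / (6 * (3 * z' / x) ^ 2) = q ^ 3 * (x ^ 2 * z' * ((3 + y) ^ 3 / 54)) := by
    rw [hy]
    field_simp
    ring
  rw [f17]
  refine mul_le_mul_of_nonneg_left ?_ (by positivity)
  have f18 : (3 + y) ^ 3 / 54 ≤ 1 / 2 + y := by nlinarith [mul_nonneg hy0.le (by linarith : 0 ≤ 1 - y)]
  calc x ^ 2 * z' * ((3 + y) ^ 3 / 54) ≤ x ^ 2 * z' * (1 / 2 + y) := mul_le_mul_of_nonneg_left f18 (by positivity)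
    _ = (x ^ 2 * z') / 2 + (x * z') * E := by
      rw [hy]
      field_simp
    _ ≤ (x ^ 2 * z + ρ * x) / 2 + Q' * E := by
      rw [hx2z']
      exact add_le_add le_rfl (mul_le_mul_of_nonneg_right hxz' (by linarith))
    _ = x ^ 2 * z / 2 + ρ * x / 2 + Q' * E := by ring

/-- `SmV` near `x p` -/
theorem smv [CharZero k] [T0Space X.P] (h : Hyp X) (hr : RR T l c) (hp : Rn G p A) (h3 : p3 T G p = 0)
    (ha : 0 < pz T G p A) (hlp : 0 < ∑ i, p i * l (G i)) {δ x₀ C : ℝ} (hδ : 0 ≤ δ)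
    (hlb : ∀ (n : Fin r → ℤ) (x : ℝ), x₀ ≤ x → (∀ i, |(n i : ℝ) - x * p i| ≤ δ) →
      x ^ 2 * pz T G p (∏ i, G i ^ n i) / 2 + 3 / 4 * ((∑ i, p i * l (G i)) * x) - C ≤ h0 (∏ i, G i ^ n i) 1)
    (Q : ℝ) :
    ∃ th : ℝ, 0 < th ∧ ∃ x₁ : ℝ, ∀ (n : Fin r → ℤ) (x : ℝ), x₁ ≤ x → (∀ i, |(n i : ℝ) - x * p i| ≤ δ) →
      0 ≤ pz T G p (∏ i, G i ^ n i) → x * pz T G p (∏ i, G i ^ n i) ≤ Q → SmV (1 + th) (∏ i, G i ^ n i) := by
  obtain ⟨lp, hlpd⟩ : ∃ lp, lp = ∑ i, p i * l (G i) := ⟨_, rfl⟩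
  rw [← hlpd] at hlp hlb
  obtain ⟨x₁, C', hv⟩ := vol_near h hr hp h3 ha hδ (show 0 < lp / 2 by linarith) Q
  obtain ⟨th, hth⟩ : ∃ th, th = min (1 / 2) (lp / (4 * (|Q| + 1))) := ⟨_, rfl⟩
  have ht0 : 0 < th := by rw [hth]; exact lt_min (by norm_num) (by positivity)
  have ht1 : th ≤ 1 / 2 := by rw [hth]; exact min_le_left _ _
  have ht2 : th * |Q| ≤ lp / 4 := by
    have h1 : th ≤ lp / (4 * (|Q| + 1)) := by rw [hth]; exact min_le_right _ _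
    rw [le_div_iff₀ (by positivity)] at h1
    nlinarith [abs_nonneg Q]
  refine ⟨th, ht0, max 1 (max x₀ (max x₁ (4 * (2 * |C'| + |C| + 1) / lp))), fun n x hx hn hz hzQ => ?_⟩
  have hx1 : 1 ≤ x := (le_max_left _ _).trans hx
  have hx2 : x₀ ≤ x := (le_max_left _ _).trans ((le_max_right _ _).trans hx)
  have hx3 : x₁ ≤ x := (le_max_left _ _).trans ((le_max_right _ _).trans ((le_max_right _ _).trans hx))
  have hx4 : 4 * (2 * |C'| + |C| + 1) / lp ≤ x :=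
    (le_max_right _ _).trans ((le_max_right _ _).trans ((le_max_right _ _).trans hx))
  have hx0 : 0 < x := by linarith
  obtain ⟨q, hq, hvol⟩ := hv n x hx3 hn hz hzQ
  have h1 := hlb n x hx2 hn
  refine ⟨q, A, hq, hp.hA, ?_⟩
  have hq0 : (0 : ℝ) < q := by exact_mod_cast hq
  obtain ⟨z, hzd⟩ : ∃ z, z = pz T G p (∏ i, G i ^ n i) := ⟨_, rfl⟩
  obtain ⟨v, hvd⟩ : ∃ v, v = vol ((∏ i, G i ^ n i) ^ q * A) := ⟨_, rfl⟩
  obtain ⟨d, hd⟩ : ∃ d : ℝ, d = h0 (∏ i, G i ^ n i) 1 := ⟨_, rfl⟩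
  rw [← hzd, ← hvd] at hvol
  rw [← hzd, ← hd] at h1
  rw [← hzd] at hz hzQ
  rw [← hvd, ← hd]
  have h4 : (1 + th) * v ≤ (1 + th) * (q ^ 3 * (x ^ 2 * z / 2 + lp / 2 * x / 2 + C')) :=
    mul_le_mul_of_nonneg_left hvol (by linarith)
  have h5 : (1 + th) * (x ^ 2 * z / 2 + lp / 2 * x / 2 + C') < d := by
    have h6 : x * (x * z) ≤ x * |Q| := mul_le_mul_of_nonneg_left (hzQ.trans (le_abs_self Q)) hx0.le
    have h7 : th * (x * (x * z)) ≤ th * (x * |Q|) := mul_le_mul_of_nonneg_left h6 ht0.le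
    have h8 : th * (x * |Q|) ≤ x * (lp / 4) := by
      have : th * (x * |Q|) = x * (th * |Q|) := by ring
      rw [this]
      exact mul_le_mul_of_nonneg_left ht2 hx0.le
    have h9 : th * (lp * x) ≤ 1 / 2 * (lp * x) := mul_le_mul_of_nonneg_right ht1 (by positivity)
    have h10 : (1 + th) * C' ≤ 2 * |C'| := by
      have h11 : (1 + th) * C' ≤ (1 + th) * |C'| := mul_le_mul_of_nonneg_left (le_abs_self _) (by linarith)
      have h12 : (1 + th) * |C'| ≤ 2 * |C'| := mul_le_mul_of_nonneg_right (by linarith) (abs_nonneg _)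
      linarith
    have h13 : 4 * (2 * |C'| + |C| + 1) ≤ x * lp := by
      rwa [div_le_iff₀ hlp] at hx4
    have h14 := le_abs_self C
    nlinarith
  have h6 : (1 + th) * (q ^ 3 * (x ^ 2 * z / 2 + lp / 2 * x / 2 + C')) < q ^ 3 * d := by
    have h7 : (1 + th) * (q ^ 3 * (x ^ 2 * z / 2 + lp / 2 * x / 2 + C')) =
        q ^ 3 * ((1 + th) * (x ^ 2 * z / 2 + lp / 2 * x / 2 + C')) := by ring
    rw [h7]
    exact mul_lt_mul_of_pos_left h5 (by positivity)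
  linarith

/-- many sections, on the right side or close to it -/
theorem lb_pos {lp : ℝ} (hlp : 0 < lp) {δ x₀ C : ℝ}
    (hlb : ∀ (n : Fin r → ℤ) (x : ℝ), x₀ ≤ x → (∀ i, |(n i : ℝ) - x * p i| ≤ δ) →
      x ^ 2 * pz T G p (∏ i, G i ^ n i) / 2 + 3 / 4 * (lp * x) - C ≤ h0 (∏ i, G i ^ n i) 1) :
    ∃ x₁ : ℝ, ∀ (n : Fin r → ℤ) (x : ℝ), x₁ ≤ x → (∀ i, |(n i : ℝ) - x * p i| ≤ δ) →
      - (lp / 2) ≤ x * pz T G p (∏ i, G i ^ n i) → lp * x / 4 ≤ h0 (∏ i, G i ^ n i) 1 := by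
  refine ⟨max 1 (max x₀ (4 * |C| / lp)), fun n x hx hn hz => ?_⟩
  have hx1 : 1 ≤ x := (le_max_left _ _).trans hx
  have hx2 : x₀ ≤ x := (le_max_left _ _).trans ((le_max_right _ _).trans hx)
  have hx3 : 4 * |C| / lp ≤ x := (le_max_right _ _).trans ((le_max_right _ _).trans hx)
  have h1 := hlb n x hx2 hn
  have h2 : x * (-(lp / 2)) ≤ x * (x * pz T G p (∏ i, G i ^ n i)) := mul_le_mul_of_nonneg_left hz (by linarith)
  have h3 : 4 * |C| ≤ x * lp := by rwa [div_le_iff₀ hlp] at hx3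
  have h4 := le_abs_self C
  nlinarith

end Pool.Agent.H83.ZU
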