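import Pool.Agent.H36.TZ.Def
import Pool.Agent.H24.ZL.LowZ

/-!
# THEOREM Z (MP_e49dc9_ag): the cubic form near `x p`, `p ^ 3 = 0`; the lower bound `lb_p`

`cube`: `T(W,W,W) = 3 x ^ 2 T(p,p,W) + 3 x e + e'` with `|e| ≤ C δ ^ 2`, `|e'| ≤ C' δ ^ 3` for `W = ∏ G_i ^ n_i`, `|n_i - x p_i| ≤ δ`.
-/

set_option autoImplicit false

namespace Pool.Agent.H83.ZU

open Pool.Agent.H54.RV Pool.Agent.H83.TU Pool.Agent.H83.TK Pool.Agent.H24.VP Pool.Agent.H39.TQ Pool.Agent.H36.TQ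
open Pool.Agent.H36.TZ Pool.Agent.H24.ZL

variable {k K : Type} [Field k] [Field K] [Algebra k K] {X : Mod k K}
  {T : Cart X → Cart X → Cart X → ℝ} {l : Cart X → ℝ} {c : ℝ} {r : ℕ} {G : Fin r → Cart X} {p : Fin r → ℝ} {A : Cart X}

theorem P_T (ht : Tri T) (n : Fin r → ℤ) (x : ℝ) (U V : Cart X) :
    T (∏ i, G i ^ n i) U V = x * pT T G p U V + ∑ i, ((n i : ℝ) - x * p i) * T (G i) U V := near1 ht n x U V

theorem P_pT (ht : Tri T) (n : Fin r → ℤ) (x : ℝ) (U : Cart X) :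
    pT T G p (∏ i, G i ^ n i) U = x * pz T G p U + ∑ i, ((n i : ℝ) - x * p i) * pT T G p (G i) U := by
  have h := W_pT (A := 1) (p := p) (G := G) ht 0 n x U
  rw [pow_zero, one_mul, Nat.cast_zero, zero_mul, zero_add] at h
  exact h

theorem P_pz (ht : Tri T) (n : Fin r → ℤ) (x : ℝ) :
    pz T G p (∏ i, G i ^ n i) = x * p3 T G p + ∑ i, ((n i : ℝ) - x * p i) * pz T G p (G i) := by
  have h := W_pz (A := 1) (p := p) (G := G) ht 0 n x
  rw [pow_zero, one_mul, Nat.cast_zero, zero_mul, zero_add] at h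
  exact h

theorem cube_eq (ht : Tri T) (h3 : p3 T G p = 0) (n : Fin r → ℤ) (x : ℝ) :
    T (∏ i, G i ^ n i) (∏ i, G i ^ n i) (∏ i, G i ^ n i) =
      3 * x ^ 2 * pz T G p (∏ i, G i ^ n i) +
        3 * x * (∑ i, ((n i : ℝ) - x * p i) * ∑ j, ((n j : ℝ) - x * p j) * pT T G p (G j) (G i)) +
        ∑ i, ((n i : ℝ) - x * p i) * ∑ j, ((n j : ℝ) - x * p j) * ∑ m, ((n m : ℝ) - x * p m) * T (G m) (G i) (G j) := by
  obtain ⟨W, hW⟩ : ∃ W, W = ∏ i, G i ^ n i := ⟨_, rfl⟩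
  obtain ⟨w, hw⟩ : ∃ w : Fin r → ℝ, w = fun i => (n i : ℝ) - x * p i := ⟨_, rfl⟩
  have hw' : ∀ i, (n i : ℝ) - x * p i = w i := fun i => by rw [hw]
  have e1 : ∀ U V, T W U V = x * pT T G p U V + ∑ i, w i * T (G i) U V := fun U V => by
    rw [hW, P_T (p := p) ht n x U V]
    simp only [hw']
  have e2 : ∀ U, pT T G p W U = x * pz T G p U + ∑ i, w i * pT T G p (G i) U := fun U => by
    rw [hW, P_pT (p := p) ht n x U]
    simp only [hw']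
  have e3 : pz T G p W = ∑ i, w i * pz T G p (G i) := by
    rw [hW, P_pz (p := p) ht n x, h3, mul_zero, zero_add]
    simp only [hw']
  simp only [hw']
  rw [← hW]
  have e4 : ∀ i, pT T G p (G i) W = x * pz T G p (G i) + ∑ j, w j * pT T G p (G j) (G i) := fun i => by
    rw [pT_comm ht, e2]
  have e5 : ∀ i j, T (G i) (G j) W = x * pT T G p (G i) (G j) + ∑ m, w m * T (G m) (G i) (G j) := fun i j => by
    rw [ht.s23, ht.s12, e1]
  have e6 : ∀ i, T (G i) W W = x * pT T G p (G i) W + ∑ j, w j * T (G i) (G j) W := fun i => by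
    rw [ht.s12, e1]
    congr 1
    refine Finset.sum_congr rfl fun j _ => ?_
    rw [ht.s12 (G j)]
  obtain ⟨E, hE⟩ : ∃ E, E = ∑ i, w i * ∑ j, w j * pT T G p (G j) (G i) := ⟨_, rfl⟩
  have e7 : ∑ i, w i * pT T G p (G i) W = x * pz T G p W + E := by
    rw [e3, hE, Finset.mul_sum, ← Finset.sum_add_distrib]
    refine Finset.sum_congr rfl fun i _ => ?_
    rw [e4]
    ring
  have e8 : ∑ i, w i * ∑ j, w j * T (G i) (G j) W = x * E +
      ∑ i, w i * ∑ j, w j * ∑ m, w m * T (G m) (G i) (G j) := by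
    rw [hE, Finset.mul_sum, ← Finset.sum_add_distrib]
    refine Finset.sum_congr rfl fun i _ => ?_
    rw [mul_left_comm, ← mul_add]
    congr 1
    rw [Finset.mul_sum, ← Finset.sum_add_distrib]
    refine Finset.sum_congr rfl fun j _ => ?_
    rw [e5, pT_comm ht (G i)]
    ring
  have e9 : ∑ i, w i * T (G i) W W = x * (x * pz T G p W + E) + (x * E +
      ∑ i, w i * ∑ j, w j * ∑ m, w m * T (G m) (G i) (G j)) := by
    rw [← e7, ← e8, Finset.mul_sum, ← Finset.sum_add_distrib]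
    refine Finset.sum_congr rfl fun i _ => ?_
    rw [e6]
    ring
  rw [e1, e2, e7, e9, ← hE]
  ring

theorem cube (ht : Tri T) (h3 : p3 T G p = 0) : ∃ C C' : ℝ, 0 ≤ C ∧ 0 ≤ C' ∧ ∀ (δ : ℝ) (n : Fin r → ℤ) (x : ℝ),
    0 ≤ δ → 0 ≤ x → (∀ i, |(n i : ℝ) - x * p i| ≤ δ) →
      |T (∏ i, G i ^ n i) (∏ i, G i ^ n i) (∏ i, G i ^ n i) - 3 * x ^ 2 * pz T G p (∏ i, G i ^ n i)| ≤
        C * δ ^ 2 * x + C' * δ ^ 3 := by
  refine ⟨3 * ∑ i, ∑ j, |pT T G p (G j) (G i)|, ∑ i, ∑ j, ∑ m, |T (G m) (G i) (G j)|, by positivity, by positivity,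
    fun δ n x hδ hx hn => ?_⟩
  rw [cube_eq ht h3 n x]
  have h1 : |∑ i, ((n i : ℝ) - x * p i) * ∑ j, ((n j : ℝ) - x * p j) * pT T G p (G j) (G i)| ≤
      δ ^ 2 * ∑ i, ∑ j, |pT T G p (G j) (G i)| := by
    refine (sum_bd _ _ hn).trans ?_
    rw [pow_two, mul_assoc]
    refine mul_le_mul_of_nonneg_left ?_ hδ
    rw [Finset.mul_sum]
    exact Finset.sum_le_sum fun i _ => sum_bd _ _ hn
  have h2 : |∑ i, ((n i : ℝ) - x * p i) * ∑ j, ((n j : ℝ) - x * p j) *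
      ∑ m, ((n m : ℝ) - x * p m) * T (G m) (G i) (G j)| ≤ δ ^ 3 * ∑ i, ∑ j, ∑ m, |T (G m) (G i) (G j)| := by
    refine (sum_bd _ _ hn).trans ?_
    have e : δ ^ 3 * ∑ i, ∑ j, ∑ m, |T (G m) (G i) (G j)| = δ * ∑ i, (δ * ∑ j, (δ * ∑ m, |T (G m) (G i) (G j)|)) := by
      simp only [← Finset.mul_sum]
      ring
    rw [e]
    refine mul_le_mul_of_nonneg_left (Finset.sum_le_sum fun i _ => ?_) hδ
    refine (sum_bd _ _ hn).trans ?_
    exact mul_le_mul_of_nonneg_left (Finset.sum_le_sum fun j _ => sum_bd _ _ hn) hδ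
  obtain ⟨a, ha⟩ : ∃ a, a = 3 * x ^ 2 * pz T G p (∏ i, G i ^ n i) := ⟨_, rfl⟩
  obtain ⟨e₁, he₁⟩ : ∃ e₁, e₁ = ∑ i, ((n i : ℝ) - x * p i) * ∑ j, ((n j : ℝ) - x * p j) * pT T G p (G j) (G i) := ⟨_, rfl⟩
  obtain ⟨e₂, he₂⟩ : ∃ e₂, e₂ = ∑ i, ((n i : ℝ) - x * p i) * ∑ j, ((n j : ℝ) - x * p j) *
      ∑ m, ((n m : ℝ) - x * p m) * T (G m) (G i) (G j) := ⟨_, rfl⟩
  rw [← he₁] at h1
  rw [← he₂] at h2
  rw [← ha, ← he₁, ← he₂]
  have e : a + 3 * x * e₁ + e₂ - a = 3 * x * e₁ + e₂ := by ring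
  rw [e]
  refine (abs_add_le _ _).trans ?_
  have h4 : |3 * x * e₁| ≤ 3 * (∑ i, ∑ j, |pT T G p (G j) (G i)|) * δ ^ 2 * x := by
    rw [abs_mul, abs_of_nonneg (by positivity : 0 ≤ 3 * x)]
    calc 3 * x * |e₁| ≤ 3 * x * (δ ^ 2 * ∑ i, ∑ j, |pT T G p (G j) (G i)|) :=
          mul_le_mul_of_nonneg_left h1 (by positivity)
      _ = _ := by ring
  have h5 : δ ^ 3 * ∑ i, ∑ j, ∑ m, |T (G m) (G i) (G j)| = (∑ i, ∑ j, ∑ m, |T (G m) (G i) (G j)|) * δ ^ 3 := by ring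
  rw [h5] at h2
  exact add_le_add h4 h2

/-- `T(p,A,A) > 0` -/
theorem pTA_pos [CharZero k] [T0Space X.P] (h : Hyp X) (hr : RR T l c) (hp : Rn G p A) (ha : 0 < pz T G p A) :
    0 < pT T G p A A := by
  classical
  have hA := hp.hA
  have h0 := pT_amp h hr hp hA hA
  refine lt_of_le_of_ne h0 fun h1 => ?_
  have h2 : ∀ i, pT T G p (G i) A = 0 := by
    intro i
    obtain ⟨n₁, h3⟩ := exists_amp h.var hA (G i)
    obtain ⟨n₂, h4⟩ := exists_amp h.var hA (G i)⁻¹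
    have h5 := pT_amp h hr hp (h3 n₁ le_rfl) hA
    have h6 := pT_amp h hr hp (h4 n₂ le_rfl) hA
    have h7 : pT T G p (G i)⁻¹ A = - pT T G p (G i) A := by
      have h8 := pT_zpow (G := G) (p := p) hr.tri (G i) A (-1)
      rw [zpow_neg_one] at h8
      rw [h8]
      push_cast
      ring
    rw [pT_mul hr.tri, pT_pow hr.tri, ← h1] at h5 h6
    rw [h7] at h6
    apply le_antisymm <;> linarith
  have h3 : pz T G p A = 0 := by
    unfold pz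
    exact Finset.sum_eq_zero fun i _ => by rw [h2, mul_zero]
  rw [h3] at ha
  exact lt_irrefl _ ha

theorem bf_pz (ht : Tri T) : bf T A G p p = pz T G p A := by
  unfold bf pz pT
  refine Finset.sum_congr rfl fun i _ => ?_
  rw [Finset.mul_sum]
  refine Finset.sum_congr rfl fun j _ => ?_
  rw [ht.s12 (G i)]
  ring

theorem l_prod (hr : RR T l c) (n : Fin r → ℤ) : l (∏ i, G i ^ n i) = ∑ i, n i * l (G i) := by
  obtain ⟨f, hf⟩ : ∃ f : Cart X →* Multiplicative ℝ, ∀ B, (f B).toAdd = l B :=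
    ⟨MonoidHom.mk' (fun B => Multiplicative.ofAdd (l B)) fun B C => by rw [hr.ladd, ofAdd_add], fun _ => rfl⟩
  rw [← hf, map_prod, toAdd_prod]
  refine Finset.sum_congr rfl fun i _ => ?_
  rw [map_zpow, toAdd_zpow, zsmul_eq_mul, hf]

/-- (LB) with numbers: many sections on the right side, and on the wrong side if `x |z(W)|` is small -/
theorem lb_p [CharZero k] [T0Space X.P] (h : Hyp X) (hr : RR T l c) (hp : Rn G p A) (h3 : p3 T G p = 0)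
    (ha : 0 < pz T G p A) (hlp : 0 < ∑ i, p i * l (G i)) (hlin : ∀ z : Fin r → ℤ, ∑ i, p i * z i = 0 → z = 0) :
    ∃ δ : ℝ, 0 < δ ∧ ∃ x₀ C : ℝ, ∀ (n : Fin r → ℤ) (x : ℝ), x₀ ≤ x → (∀ i, |(n i : ℝ) - x * p i| ≤ δ) →
      x ^ 2 * pz T G p (∏ i, G i ^ n i) / 2 + 3 / 4 * ((∑ i, p i * l (G i)) * x) - C ≤ h0 (∏ i, G i ^ n i) 1 := by
  obtain ⟨C₁, C₂, hC₁, hC₂, hcube⟩ := cube (G := G) (p := p) hr.tri h3
  obtain ⟨lp, hlpd⟩ : ∃ lp, lp = ∑ i, p i * l (G i) := ⟨_, rfl⟩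
  rw [← hlpd] at hlp
  obtain ⟨C₃, x₀, hlow⟩ := low_z' h hr hp.hA hlin (fun E B hB hE => pT_lim hr.tri hp fun W hW => (hE W hW).le)
    (pTA_pos h hr hp ha) (by rw [bf_pz hr.tri]; exact ha) 1
  obtain ⟨δ, hδ⟩ : ∃ δ, δ = min 1 (lp / (C₁ + 1)) := ⟨_, rfl⟩
  have hδ0 : 0 < δ := by rw [hδ]; exact lt_min one_pos (by positivity)
  have hδ1 : δ ≤ 1 := by rw [hδ]; exact min_le_left _ _
  have hδ2 : C₁ * δ ^ 2 ≤ lp := by
    have h1 : δ ≤ lp / (C₁ + 1) := by rw [hδ]; exact min_le_right _ _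
    rw [le_div_iff₀ (by linarith)] at h1
    nlinarith
  refine ⟨δ, hδ0, max 0 x₀, C₂ / 6 + (∑ i, |l (G i)|) + |c| + C₃, fun n x hx hn => ?_⟩
  have hx0 : 0 ≤ x := (le_max_left _ _).trans hx
  have h1 := hlow n x ((le_max_right _ _).trans hx) fun i => (hn i).trans hδ1
  have h2 := (abs_le.1 (hcube δ n x hδ0.le hx0 hn)).1
  have h4 : l (∏ i, G i ^ n i) = x * lp + ∑ i, ((n i : ℝ) - x * p i) * l (G i) := by
    rw [l_prod hr, hlpd, Finset.mul_sum, ← Finset.sum_add_distrib]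
    exact Finset.sum_congr rfl fun i _ => by ring
  have h5 := (abs_le.1 (sum_bd _ (fun i => l (G i)) hn)).1
  have h6 : δ * ∑ i, |l (G i)| ≤ ∑ i, |l (G i)| := mul_le_of_le_one_left (by positivity) hδ1
  have h7 := neg_abs_le c
  have h8 : C₂ * δ ^ 3 ≤ C₂ := mul_le_of_le_one_right hC₂ (pow_le_one₀ hδ0.le hδ1)
  have h9 : C₁ * δ ^ 2 * x ≤ lp * x := mul_le_mul_of_nonneg_right hδ2 hx0
  unfold chi at h1
  rw [h4] at h1
  have h10 : 0 ≤ lp * x := by positivity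
  rw [← hlpd]
  linarith

end Pool.Agent.H83.ZU
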