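import Pool.Agent.H83.ZU.Ub
import Pool.Agent.H83.ZU.Cub

/-!
# THEOREM Z (MP_e49dc9_ag): the upper bound for the volume at the real class `p + μ A`

`vol_p`: `vol V ≤ (V.(p + μ A)^2)^3 / (6 ((p + μ A)^3)^2)`: `vol_ub` for the ample divisors `A ^ (C + j) ∏ G_i ^ m_i`, `m_i / N → p_i`, `j / N → μ`.
-/

set_option autoImplicit false

namespace Pool.Agent.H83.ZU

open Pool.Agent.H54.RV Pool.Agent.H83.TU Pool.Agent.H83.TK Pool.Agent.H24.VP Pool.Agent.H39.TQ Pool.Agent.H36.TQ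
open Pool.Agent.H36.TZ Filter Topology

variable {k K : Type} [Field k] [Field K] [Algebra k K] {X : Mod k K}
  {T : Cart X → Cart X → Cart X → ℝ} {l : Cart X → ℝ} {c : ℝ} {r : ℕ} {G : Fin r → Cart X} {p : Fin r → ℝ} {A : Cart X}

theorem near_lim {a : ℕ → ℝ} {y C : ℝ} (h : ∀ N : ℕ, |a N - N * y| ≤ C) :
    Tendsto (fun N : ℕ => a N / N) atTop (𝓝 y) := by
  rw [← tendsto_sub_nhds_zero_iff]
  have h1 : Tendsto (fun N : ℕ => C / (N : ℝ)) atTop (𝓝 0) := tendsto_const_div_atTop_nhds_zero_nat C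
  refine squeeze_zero_norm' ?_ h1
  filter_upwards [eventually_ge_atTop 1] with N hN
  have hN1 : (0 : ℝ) < N := by exact_mod_cast hN
  have e : a N / N - y = (a N - N * y) / N := by field_simp
  rw [e, Real.norm_eq_abs, abs_div, abs_of_pos hN1]
  exact div_le_div_of_nonneg_right (h N) hN1.le

/-- `p + μ A` is a limit of ample classes `B N / N` -/
theorem exists_B (hX : IsVar X) (hp : Rn G p A) {μ : ℝ} (hμ : 0 ≤ μ) :
    ∃ (m : ℕ → Fin r → ℤ) (j : ℕ → ℕ), (∀ N, Ample (A ^ j N * ∏ i, G i ^ m N i)) ∧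
      (∀ i, Tendsto (fun N : ℕ => (m N i : ℝ) / N) atTop (𝓝 (p i))) ∧
      Tendsto (fun N : ℕ => (j N : ℝ) / N) atTop (𝓝 μ) := by
  obtain ⟨C₀, hC₀⟩ := hp.more hX
  choose m hm using fun N : ℕ => exists_m p N
  refine ⟨m, fun N => C₀ + ⌊N * μ⌋₊, fun N => hC₀ _ (Nat.le_add_right _ _) N _ (hm N), fun i =>
    near_lim fun N => hm N i, near_lim (C := C₀ + 1) fun N => ?_⟩
  have h0 : 0 ≤ (N : ℝ) * μ := by positivity
  have h1 := Nat.floor_le h0
  have h2 := Nat.lt_floor_add_one ((N : ℝ) * μ)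
  have h3 : (0 : ℝ) ≤ C₀ := Nat.cast_nonneg _
  push_cast
  rw [abs_le]
  constructor <;> linarith

/-- the value of a linear form -/
theorem B_T (ht : Tri T) (m : Fin r → ℤ) (j : ℕ) (U V : Cart X) :
    T (A ^ j * ∏ i, G i ^ m i) U V = j * T A U V + ∑ i, m i * T (G i) U V := by
  rw [ht.add, ht.pow, ht.prod]
  simp only [ht.zpow]

theorem lim_comb {m : ℕ → Fin r → ℤ} {j : ℕ → ℕ} {μ : ℝ}
    (hm : ∀ i, Tendsto (fun N : ℕ => (m N i : ℝ) / N) atTop (𝓝 (p i)))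
    (hj : Tendsto (fun N : ℕ => (j N : ℝ) / N) atTop (𝓝 μ)) {f : ℕ → ℝ} {g : Fin r → ℕ → ℝ} {α : ℝ} {β : Fin r → ℝ}
    (hf : Tendsto f atTop (𝓝 α)) (hg : ∀ i, Tendsto (g i) atTop (𝓝 (β i))) :
    Tendsto (fun N : ℕ => (j N : ℝ) / N * f N + ∑ i, (m N i : ℝ) / N * g i N) atTop (𝓝 (μ * α + ∑ i, p i * β i)) :=
  (hj.mul hf).add (tendsto_finset_sum _ fun i _ => (hm i).mul (hg i))

section lim

variable {m : ℕ → Fin r → ℤ} {j : ℕ → ℕ} {μ : ℝ}

theorem lim1 (ht : Tri T) (hm : ∀ i, Tendsto (fun N : ℕ => (m N i : ℝ) / N) atTop (𝓝 (p i)))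
    (hj : Tendsto (fun N : ℕ => (j N : ℝ) / N) atTop (𝓝 μ)) (U V : Cart X) :
    Tendsto (fun N : ℕ => T (A ^ j N * ∏ i, G i ^ m N i) U V / N) atTop (𝓝 (μ * T A U V + pT T G p U V)) := by
  refine (lim_comb hm hj (f := fun _ => T A U V) (g := fun i _ => T (G i) U V) tendsto_const_nhds
    fun i => tendsto_const_nhds).congr fun N => ?_
  rw [B_T ht, add_div, Finset.sum_div]
  congr 1
  · ring
  · exact Finset.sum_congr rfl fun i _ => by ring

theorem lim2 (ht : Tri T) (hm : ∀ i, Tendsto (fun N : ℕ => (m N i : ℝ) / N) atTop (𝓝 (p i)))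
    (hj : Tendsto (fun N : ℕ => (j N : ℝ) / N) atTop (𝓝 μ)) (V : Cart X) :
    Tendsto (fun N : ℕ => T V (A ^ j N * ∏ i, G i ^ m N i) (A ^ j N * ∏ i, G i ^ m N i) / (N : ℝ) ^ 2) atTop
      (𝓝 (μ ^ 2 * T V A A + 2 * μ * pT T G p V A + pz T G p V)) := by
  have h1 := lim_comb hm hj (f := fun N => T (A ^ j N * ∏ i, G i ^ m N i) A V / N)
    (g := fun i N => T (A ^ j N * ∏ i, G i ^ m N i) (G i) V / N) (lim1 ht hm hj A V) fun i => lim1 ht hm hj (G i) V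
  have e1 : μ * (μ * T A A V + pT T G p A V) + ∑ i, p i * (μ * T A (G i) V + pT T G p (G i) V) =
      μ ^ 2 * T V A A + 2 * μ * pT T G p V A + pz T G p V := by
    unfold pz
    simp only [mul_add, Finset.sum_add_distrib]
    have e2 : ∑ i, p i * (μ * T A (G i) V) = μ * pT T G p V A := by
      unfold pT
      rw [Finset.mul_sum]
      refine Finset.sum_congr rfl fun i _ => ?_
      rw [ht.s12 A (G i), ht.s23 (G i) A V]
      ring
    rw [e2, pT_comm ht A V, ht.s23 A A V, ht.s12 A V A]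
    ring
  rw [e1] at h1
  refine h1.congr fun N => ?_
  obtain ⟨B, hB⟩ : ∃ B, B = A ^ j N * ∏ i, G i ^ m N i := ⟨_, rfl⟩
  have e2 : T V B B = j N * T B A V + ∑ i, m N i * T B (G i) V := by
    rw [ht.s12 V, ht.s23 B V]
    nth_rewrite 1 [hB]
    rw [B_T ht, ht.s12 A B V]
    congr 1
    exact Finset.sum_congr rfl fun i _ => by rw [ht.s12 (G i)]
  rw [← hB, e2, add_div, Finset.sum_div]
  congr 1
  · ring
  · exact Finset.sum_congr rfl fun i _ => by ring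

theorem lim3 (ht : Tri T) (hm : ∀ i, Tendsto (fun N : ℕ => (m N i : ℝ) / N) atTop (𝓝 (p i)))
    (hj : Tendsto (fun N : ℕ => (j N : ℝ) / N) atTop (𝓝 μ)) :
    Tendsto (fun N : ℕ => T (A ^ j N * ∏ i, G i ^ m N i) (A ^ j N * ∏ i, G i ^ m N i) (A ^ j N * ∏ i, G i ^ m N i) /
      (N : ℝ) ^ 3) atTop (𝓝 (μ ^ 3 * T A A A + 3 * μ ^ 2 * pT T G p A A + 3 * μ * pz T G p A + p3 T G p)) := by
  have h1 := lim_comb hm hj
    (f := fun N => T A (A ^ j N * ∏ i, G i ^ m N i) (A ^ j N * ∏ i, G i ^ m N i) / (N : ℝ) ^ 2)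
    (g := fun i N => T (G i) (A ^ j N * ∏ i, G i ^ m N i) (A ^ j N * ∏ i, G i ^ m N i) / (N : ℝ) ^ 2)
    (lim2 ht hm hj A) fun i => lim2 ht hm hj (G i)
  have e1 : μ * (μ ^ 2 * T A A A + 2 * μ * pT T G p A A + pz T G p A) +
      ∑ i, p i * (μ ^ 2 * T (G i) A A + 2 * μ * pT T G p (G i) A + pz T G p (G i)) =
      μ ^ 3 * T A A A + 3 * μ ^ 2 * pT T G p A A + 3 * μ * pz T G p A + p3 T G p := by
    simp only [mul_add, Finset.sum_add_distrib]
    have e2 : ∑ i, p i * (μ ^ 2 * T (G i) A A) = μ ^ 2 * pT T G p A A := by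
      unfold pT
      rw [Finset.mul_sum]
      exact Finset.sum_congr rfl fun i _ => by ring
    have e3 : ∑ i, p i * (2 * μ * pT T G p (G i) A) = 2 * μ * pz T G p A := by
      unfold pz
      rw [Finset.mul_sum]
      exact Finset.sum_congr rfl fun i _ => by ring
    have e4 : ∑ i, p i * pz T G p (G i) = p3 T G p := rfl
    rw [e2, e3, e4]
    ring
  rw [e1] at h1
  refine h1.congr fun N => ?_
  have e2 : ∀ W : Cart X, T (A ^ j N * ∏ i, G i ^ m N i) W W = j N * T A W W + ∑ i, m N i * T (G i) W W :=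
    fun W => B_T ht _ _ _ _
  rw [e2, add_div, Finset.sum_div]
  congr 1
  · ring
  · exact Finset.sum_congr rfl fun i _ => by ring

end lim

/-- (UB) at the real class `p + μ A` -/
theorem vol_p [CharZero k] [T0Space X.P] (h : Hyp X) (hr : RR T l c) (hp : Rn G p A) (h3 : p3 T G p = 0)
    (ha : 0 < pz T G p A) {μ : ℝ} (hμ : 0 < μ) (V : Cart X) :
    vol V ≤ max 0 (pz T G p V + 2 * μ * pT T G p V A + μ ^ 2 * T V A A) ^ 3 /
      (6 * (3 * μ * pz T G p A + 3 * μ ^ 2 * pT T G p A A + μ ^ 3 * T A A A) ^ 2) := by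
  obtain ⟨m, j, hB, hm, hj⟩ := exists_B h.var hp hμ.le
  have ht := hr.tri
  have h1 := lim2 (A := A) (G := G) ht hm hj V
  have h2 := lim3 (A := A) (G := G) ht hm hj
  rw [h3, add_zero] at h2
  obtain ⟨κ, hκ⟩ : ∃ κ, κ = 3 * μ * pz T G p A + 3 * μ ^ 2 * pT T G p A A + μ ^ 3 * T A A A := ⟨_, rfl⟩
  have hκ0 : 0 < κ := by
    have h4 := pTA_pos h hr hp ha
    have h5 := pos_amp h hr hp.hA hp.hA hp.hA
    rw [hκ]
    positivity
  have e1 : μ ^ 3 * T A A A + 3 * μ ^ 2 * pT T G p A A + 3 * μ * pz T G p A = κ := by rw [hκ]; ring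
  have e2 : μ ^ 2 * T V A A + 2 * μ * pT T G p V A + pz T G p V =
      pz T G p V + 2 * μ * pT T G p V A + μ ^ 2 * T V A A := by ring
  rw [e1] at h2
  rw [e2] at h1
  rw [← hκ]
  have h4 := (((tendsto_const_nhds (x := (0 : ℝ)) (f := atTop (α := ℕ))).max h1).pow 3).div
    ((h2.pow 2).const_mul 6) (by positivity)
  refine ge_of_tendsto h4 ?_
  filter_upwards [eventually_ge_atTop 1] with N hN
  have hN1 : (0 : ℝ) < N := by exact_mod_cast hN
  obtain ⟨B, hBd⟩ : ∃ B, B = A ^ j N * ∏ i, G i ^ m N i := ⟨_, rfl⟩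
  have h5 := hB N
  rw [← hBd] at h5
  refine (vol_ub h hr h5 V).trans (le_of_eq ?_)
  rw [Pi.div_apply, ← hBd]
  have h6 : max 0 (T V B B / (N : ℝ) ^ 2) = max 0 (T V B B) / (N : ℝ) ^ 2 := by
    rw [← max_div_div_right (by positivity : (0 : ℝ) ≤ (N : ℝ) ^ 2) 0 (T V B B), zero_div]
  have h7 := (pos_amp h hr h5 h5 h5).ne'
  rw [h6]
  field_simp

end Pool.Agent.H83.ZU
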