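import Pool.Agent.H83.TC.Bdd
import Pool.Agent.H24.VP.Exi

/-!
# THEOREM Z (MP_e49dc9_ag), (UB): the upper bound for the number of sections

`ub_S`, `ub_X`: `h0 (ψ W) ≤ t ^ 2 / (2 H^3) + B (t + 1)`, `h0 W ≤ t ^ 3 / (6 (H^3) ^ 2) + B (t + 1) ^ 2` for all divisors `W` with
`T(W,H,H) ≤ t`, `0 ≤ t` (restriction to the generic surfaces and curves).
`ub_A`: the same for every ample divisor `A`.  `vol_ub`: `vol D ≤ T(D,A,A) ^ 3 / (6 (A^3) ^ 2)`.
-/

set_option autoImplicit false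

namespace Pool.Agent.H83.ZU

open Pool.Agent.H54.RV Pool.Agent.H83.TU Pool.Agent.H83.TK Pool.Agent.H24.TK Pool.Agent.H24.VP Pool.Agent.H83.TC
open Pool.Agent.H41.TK (dg dg_ample h0_neg h0_le_dg Crv)

variable {k K : Type} [Field k] [Field K] [Algebra k K] {X : Mod k K}
  {T : Cart X → Cart X → Cart X → ℝ} {l : Cart X → ℝ} {c : ℝ} {H : Cart X} {k' L : Type} [Field k'] [Field L]
  [Algebra k' L] {S : Mod k' L} {ψ : Cart X →* Cart S}

theorem ub_S (hr : RR T l c) (hS : Sf H S ψ) :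
    ∃ B : ℝ, 0 ≤ B ∧ ∀ (W : Cart X) (t : ℝ), 0 ≤ t → T W H H ≤ t →
      (h0 (ψ W) 1 : ℝ) ≤ t ^ 2 / (2 * T H H H) + B * (t + 1) := by
  obtain ⟨hT, m, k₂, K₂, i1, i2, i3, i4, C, φ, hm, hC, hφ, hle, hdg, hch⟩ := crv_num hr hS
  have hm1 : (1 : ℝ) ≤ m := by exact_mod_cast hm
  obtain ⟨κ, hκ⟩ : ∃ κ : ℝ, κ = T H H H := ⟨_, rfl⟩
  obtain ⟨γ, hγ⟩ : ∃ γ : ℝ, γ = h0 (1 : Cart C) 1 := ⟨_, rfl⟩
  have hκ0 : 0 < κ := by rw [hκ]; exact hT
  have hγ0 : 0 ≤ γ := by rw [hγ]; positivity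
  have hM0 : 0 < (m : ℝ) * κ := by positivity
  obtain ⟨B, hB⟩ : ∃ B : ℝ, B = (γ + m * (m * κ)) * (1 + 1 / (m * κ)) := ⟨_, rfl⟩
  have hB0 : 0 ≤ B := by rw [hB]; positivity
  have hB1 : γ + m * (m * κ) ≤ B := by
    have h1 : 0 ≤ (γ + m * (m * κ)) * (1 / (m * κ)) := by positivity
    rw [hB, mul_add, mul_one]
    linarith
  have hB2 : γ + m * (m * κ) ≤ B * (m * κ) := by
    have h1 : (γ + m * (m * κ)) * (1 + 1 / (m * κ)) * (m * κ) =
        (γ + m * (m * κ)) * (m * κ) + (γ + m * (m * κ)) := by field_simp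
    rw [hB, h1]
    have h2 : 0 ≤ (γ + m * (m * κ)) * (m * κ) := by positivity
    linarith
  have key : ∀ q : ℕ, ∀ W : Cart X, 0 ≤ T W H H → T W H H < q * (m * κ) →
      (h0 (ψ W) 1 : ℝ) ≤ (T W H H) ^ 2 / (2 * κ) + B * (T W H H + 1) := by
    intro q
    induction q with
    | zero =>
      intro W h1 h2
      rw [Nat.cast_zero, zero_mul] at h2
      linarith
    | succ q ih =>
      intro W h1 h2
      obtain ⟨τ, hτ⟩ : ∃ τ : ℝ, τ = T W H H := ⟨_, rfl⟩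
      have hc : (h0 (φ W) 1 : ℝ) ≤ m * τ + γ := by
        rcases lt_or_ge (dg (φ W)) 0 with h3 | h3
        · rw [h0_neg hC _ h3, Nat.cast_zero]
          rw [← hτ] at h1
          positivity
        · have h4 := h0_le_dg hC (φ W) h3
          have h5 : (h0 (φ W) 1 : ℝ) ≤ dg (φ W) + h0 (1 : Cart C) 1 := by exact_mod_cast h4
          rw [hdg, ← hτ, ← hγ] at h5
          exact h5
      have h3 : (h0 (ψ W) 1 : ℝ) ≤ h0 (ψ (W * (H ^ m)⁻¹)) 1 + h0 (φ W) 1 := by exact_mod_cast hle W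
      have h4 : T (W * (H ^ m)⁻¹) H H = τ - m * κ := by
        rw [hr.tri.add, hr.tri.inv, hr.tri.pow, hτ, hκ]
        ring
      rw [← hτ] at h1 h2 ⊢
      rcases lt_or_ge τ (m * κ) with h5 | h5
      · have h6 : h0 (ψ (W * (H ^ m)⁻¹)) 1 = 0 := by
          rcases Nat.eq_zero_or_pos (h0 (ψ (W * (H ^ m)⁻¹)) 1) with h7 | h7
          · exact h7
          · have h8 := h0_nn hr hS _ h7
            rw [h4] at h8
            linarith
        rw [h6, Nat.cast_zero, zero_add] at h3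
        have h7 : (m : ℝ) * τ ≤ m * (m * κ) := mul_le_mul_of_nonneg_left h5.le (by linarith)
        have h8 : 0 ≤ τ ^ 2 / (2 * κ) := by positivity
        have h9 : 0 ≤ B * τ := by positivity
        nlinarith
      · have h6 := ih (W * (H ^ m)⁻¹) (by rw [h4]; linarith) (by
          rw [h4]
          push_cast at h2
          linarith)
        rw [h4] at h6
        have h7 : (τ - m * κ) ^ 2 / (2 * κ) = τ ^ 2 / (2 * κ) - m * τ + m * (m * κ) / 2 := by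
          field_simp
          ring
        rw [h7] at h6
        have h8 : 0 ≤ (m : ℝ) * (m * κ) := by positivity
        nlinarith
  refine ⟨B, hB0, fun W t ht hW => ?_⟩
  rw [← hκ]
  rcases lt_or_ge (T W H H) 0 with h1 | h1
  · have h6 : h0 (ψ W) 1 = 0 := by
      rcases Nat.eq_zero_or_pos (h0 (ψ W) 1) with h7 | h7
      · exact h7
      · exact absurd (h0_nn hr hS _ h7) (not_le.2 h1)
    rw [h6, Nat.cast_zero]
    positivity
  · obtain ⟨q, hq⟩ := exists_nat_gt (T W H H / (m * κ))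
    have h2 := key q W h1 (by rwa [div_lt_iff₀ hM0] at hq)
    have h3 : T W H H ^ 2 / (2 * κ) ≤ t ^ 2 / (2 * κ) := by
      apply div_le_div_of_nonneg_right _ (by positivity)
      exact pow_le_pow_left₀ h1 hW 2
    have h4 : B * (T W H H + 1) ≤ B * (t + 1) := mul_le_mul_of_nonneg_left (by linarith) hB0
    linarith

theorem ub_X [CharZero k] [T0Space X.P] (h : Hyp X) (hr : RR T l c) (hS : Sf H S ψ) :
    ∃ B : ℝ, 0 ≤ B ∧ ∀ (W : Cart X) (t : ℝ), 0 ≤ t → T W H H ≤ t →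
      (h0 W 1 : ℝ) ≤ t ^ 3 / (6 * T H H H ^ 2) + B * (t + 1) ^ 2 := by
  have hT := pos_amp h hr hS.hH hS.hH hS.hH
  obtain ⟨B, hB0, hB⟩ := ub_S hr hS
  obtain ⟨κ, hκ⟩ : ∃ κ : ℝ, κ = T H H H := ⟨_, rfl⟩
  have hκ0 : 0 < κ := by rw [hκ]; exact hT
  obtain ⟨B', hB'⟩ : ∃ B' : ℝ, B' = 1 / (2 * κ) + B + (B + 1 / 2) / κ := ⟨_, rfl⟩
  have hB'0 : 0 ≤ B' := by rw [hB']; positivity
  have hB1 : 1 / (2 * κ) + B ≤ B' := by
    have h1 : 0 ≤ (B + 1 / 2) / κ := by positivity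
    rw [hB']
    linarith
  have hB2 : B + 1 / 2 ≤ B' * κ := by
    have h1 : (1 / (2 * κ) + B + (B + 1 / 2) / κ) * κ = 1 / 2 + B * κ + (B + 1 / 2) := by field_simp
    rw [hB', h1]
    have h2 : 0 ≤ B * κ := by positivity
    linarith
  have key : ∀ q : ℕ, ∀ W : Cart X, 0 ≤ T W H H → T W H H < q * κ →
      (h0 W 1 : ℝ) ≤ (T W H H) ^ 3 / (6 * κ ^ 2) + B' * (T W H H + 1) ^ 2 := by
    intro q
    induction q with
    | zero =>
      intro W h1 h2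
      rw [Nat.cast_zero, zero_mul] at h2
      linarith
    | succ q ih =>
      intro W h1 h2
      obtain ⟨τ, hτ⟩ : ∃ τ : ℝ, τ = T W H H := ⟨_, rfl⟩
      have hc := hB W τ (by rw [hτ]; exact h1) (by rw [hτ])
      rw [← hκ] at hc
      have h3 : (h0 W 1 : ℝ) ≤ h0 (W * H⁻¹) 1 + h0 (ψ W) 1 := by exact_mod_cast hS.le W
      have h4 : T (W * H⁻¹) H H = τ - κ := by
        rw [hr.tri.add, hr.tri.inv, hτ, hκ]
        ring
      rw [← hτ] at h1 h2 ⊢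
      rcases lt_or_ge τ κ with h5 | h5
      · have h6 : h0 (W * H⁻¹) 1 = 0 := by
          rcases Nat.eq_zero_or_pos (h0 (W * H⁻¹) 1) with h7 | h7
          · exact h7
          · have h8 := sec_nn h hr hS.hH _ h7
            rw [h4] at h8
            linarith
        rw [h6, Nat.cast_zero, zero_add] at h3
        have h7 : 0 ≤ τ ^ 3 / (6 * κ ^ 2) := by positivity
        have h8 : τ ^ 2 / (2 * κ) ≤ 1 / (2 * κ) * (τ + 1) ^ 2 := by
          rw [div_eq_mul_one_div, mul_comm]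
          exact mul_le_mul_of_nonneg_left (by nlinarith) (by positivity)
        have h9 : B * (τ + 1) ≤ B * (τ + 1) ^ 2 := mul_le_mul_of_nonneg_left (by nlinarith) hB0
        have h10 : (1 / (2 * κ) + B) * (τ + 1) ^ 2 ≤ B' * (τ + 1) ^ 2 :=
          mul_le_mul_of_nonneg_right hB1 (by positivity)
        linarith
      · have h6 := ih (W * H⁻¹) (by rw [h4]; linarith) (by
          rw [h4]
          push_cast at h2
          linarith)
        rw [h4] at h6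
        have h7 : (τ - κ) ^ 3 / (6 * κ ^ 2) = τ ^ 3 / (6 * κ ^ 2) - τ ^ 2 / (2 * κ) + τ / 2 - κ / 6 := by
          field_simp
          ring
        rw [h7] at h6
        have h8 : B' * (τ - κ + 1) ^ 2 = B' * (τ + 1) ^ 2 - B' * κ * (2 * τ + 2 - κ) := by ring
        rw [h8] at h6
        have h9 : (B + 1 / 2) * (τ + 2) ≤ B' * κ * (2 * τ + 2 - κ) := by
          have h10 : 0 ≤ B' * κ := by positivity
          have h11 : (B + 1 / 2) * (τ + 2) ≤ B' * κ * (τ + 2) := mul_le_mul_of_nonneg_right hB2 (by linarith)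
          have h12 : B' * κ * (τ + 2) ≤ B' * κ * (2 * τ + 2 - κ) := mul_le_mul_of_nonneg_left (by linarith) h10
          linarith
        nlinarith
  refine ⟨B', hB'0, fun W t ht hW => ?_⟩
  rw [← hκ]
  rcases lt_or_ge (T W H H) 0 with h1 | h1
  · have h6 : h0 W 1 = 0 := by
      rcases Nat.eq_zero_or_pos (h0 W 1) with h7 | h7
      · exact h7
      · exact absurd (sec_nn h hr hS.hH _ h7) (not_le.2 h1)
    rw [h6, Nat.cast_zero]
    positivity
  · obtain ⟨q, hq⟩ := exists_nat_gt (T W H H / κ)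
    have h2 := key q W h1 (by rwa [div_lt_iff₀ hκ0] at hq)
    have h3 : T W H H ^ 3 / (6 * κ ^ 2) ≤ t ^ 3 / (6 * κ ^ 2) := by
      apply div_le_div_of_nonneg_right _ (by positivity)
      exact pow_le_pow_left₀ h1 hW 3
    have h4 : B' * (T W H H + 1) ^ 2 ≤ B' * (t + 1) ^ 2 :=
      mul_le_mul_of_nonneg_left (pow_le_pow_left₀ (by linarith) (by linarith) 2) hB'0
    linarith

/-- (UB) -/
theorem ub_A [CharZero k] [T0Space X.P] (h : Hyp X) (hr : RR T l c) {A : Cart X} (hA : Ample A) :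
    ∃ B : ℝ, 0 ≤ B ∧ ∀ (W : Cart X) (t : ℝ), 0 ≤ t → T W A A ≤ t →
      (h0 W 1 : ℝ) ≤ t ^ 3 / (6 * T A A A ^ 2) + B * (t + 1) ^ 2 := by
  have hT := pos_amp h hr hA hA hA
  obtain ⟨m, k', L, i1, i2, i3, S, ψ, hm, hS⟩ := exists_sf h hA
  obtain ⟨B, hB0, hB⟩ := ub_X h hr hS
  have hm1 : (1 : ℝ) ≤ m := by exact_mod_cast hm
  refine ⟨B * m ^ 4, by positivity, fun W t ht hW => ?_⟩
  have h1 : T W (A ^ m) (A ^ m) ≤ m ^ 2 * t := by
    rw [hr.tri.pow2, hr.tri.pow3, ← mul_assoc, ← pow_two]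
    exact mul_le_mul_of_nonneg_left hW (by positivity)
  have h2 := hB W (m ^ 2 * t) (by positivity) h1
  have h3 : T (A ^ m) (A ^ m) (A ^ m) = m ^ 3 * T A A A := by
    rw [hr.tri.pow, hr.tri.pow2, hr.tri.pow3]
    ring
  have h4 : (m ^ 2 * t) ^ 3 / (6 * T (A ^ m) (A ^ m) (A ^ m) ^ 2) = t ^ 3 / (6 * T A A A ^ 2) := by
    rw [h3]
    have : (m : ℝ) ≠ 0 := by linarith
    have := hT.ne'
    field_simp
  rw [h4] at h2
  have h5 : (m ^ 2 * t + 1) ^ 2 ≤ (m : ℝ) ^ 4 * (t + 1) ^ 2 := by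
    have h6 : (m : ℝ) ^ 2 * t + 1 ≤ m ^ 2 * (t + 1) := by nlinarith
    calc (m ^ 2 * t + 1) ^ 2 ≤ ((m : ℝ) ^ 2 * (t + 1)) ^ 2 := pow_le_pow_left₀ (by positivity) h6 2
      _ = (m : ℝ) ^ 4 * (t + 1) ^ 2 := by ring
  have h6 : B * (m ^ 2 * t + 1) ^ 2 ≤ B * (m ^ 4 * (t + 1) ^ 2) := mul_le_mul_of_nonneg_left h5 hB0
  linarith

/-- (UB) for the multiples of a divisor -/
theorem ub_ev [CharZero k] [T0Space X.P] (h : Hyp X) (hr : RR T l c) {A : Cart X} (hA : Ample A) (D : Cart X)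
    {ε : ℝ} (hε : 0 < ε) :
    ∃ n₀ : ℕ, ∀ n ≥ n₀, (h0 D n : ℝ) ≤ (max 0 (T D A A) ^ 3 / (6 * T A A A ^ 2) + ε) * n ^ 3 := by
  obtain ⟨B, hB0, hB⟩ := ub_A h hr hA
  obtain ⟨t, ht⟩ : ∃ t : ℝ, t = max 0 (T D A A) := ⟨_, rfl⟩
  have ht0 : 0 ≤ t := by rw [ht]; exact le_max_left _ _
  obtain ⟨n₁, hn₁⟩ := exists_nat_gt (B * (t + 1) ^ 2 / ε)
  refine ⟨n₁ + 1, fun n hn => ?_⟩
  have hn0 : (n₁ : ℝ) ≤ n := by exact_mod_cast (Nat.le_succ _).trans hn
  have hn1 : (1 : ℝ) ≤ n := by exact_mod_cast (Nat.succ_le_succ (Nat.zero_le _)).trans hn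
  have h1 : h0 D n = h0 (D ^ n) 1 := by
    unfold h0
    rw [secL_pow]
  have h2 := hB (D ^ n) (n * t) (by positivity) (by
    rw [hr.tri.pow]
    exact mul_le_mul_of_nonneg_left (by rw [ht]; exact le_max_right _ _) (by positivity))
  rw [h1, ← ht]
  have h3 : (n * t) ^ 3 / (6 * T A A A ^ 2) = t ^ 3 / (6 * T A A A ^ 2) * n ^ 3 := by ring
  rw [h3] at h2
  have h4 : B * (t + 1) ^ 2 ≤ ε * n := by
    rw [div_lt_iff₀ hε] at hn₁
    nlinarith
  have h5 : B * (n * t + 1) ^ 2 ≤ ε * n ^ 3 := by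
    have h6 : (n * t + 1) ^ 2 ≤ (n : ℝ) ^ 2 * (t + 1) ^ 2 := by
      have h7 : (n : ℝ) * t + 1 ≤ n * (t + 1) := by nlinarith
      calc (n * t + 1) ^ 2 ≤ ((n : ℝ) * (t + 1)) ^ 2 := pow_le_pow_left₀ (by positivity) h7 2
        _ = (n : ℝ) ^ 2 * (t + 1) ^ 2 := by ring
    calc B * (n * t + 1) ^ 2 ≤ B * ((n : ℝ) ^ 2 * (t + 1) ^ 2) := mul_le_mul_of_nonneg_left h6 hB0
      _ = B * (t + 1) ^ 2 * n ^ 2 := by ring
      _ ≤ ε * n * n ^ 2 := mul_le_mul_of_nonneg_right h4 (by positivity)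
      _ = ε * n ^ 3 := by ring
  linarith

/-- the volume of a divisor -/
theorem vol_ub [CharZero k] [T0Space X.P] (h : Hyp X) (hr : RR T l c) {A : Cart X} (hA : Ample A) (D : Cart X) :
    vol D ≤ max 0 (T D A A) ^ 3 / (6 * T A A A ^ 2) := by
  refine le_of_forall_pos_le_add fun ε hε => ?_
  obtain ⟨n₀, hn₀⟩ := ub_ev h hr hA D hε
  refine Filter.limsup_le_of_le ?_ ?_
  · refine Filter.isCoboundedUnder_le_of_le Filter.atTop (x := 0) fun n => ?_
    positivity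
  · filter_upwards [Filter.eventually_ge_atTop (n₀ + 1)] with n hn
    have hn1 : (0 : ℝ) < n := by exact_mod_cast (Nat.succ_pos _).trans_le hn
    rw [div_le_iff₀ (by positivity)]
    exact hn₀ n ((Nat.le_succ _).trans hn)

end Pool.Agent.H83.ZU
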